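import Pool.Agent.L5helper52.QU.Main

/-!
# Quenched survival functions with expansions of every order at criticality which are not smooth there

The offspring distribution is the one of the annealed result `ExpansionNotSmooth`: mass `c_j` at `n_j = 2 ^ (8 ^ j - 1)`,
`c_j n_j` proportional to `2 ^ (-j)`. For almost every tree `T` the quenched survival function `g(T, ·)` has expansions
of every order at `p_c` from the right, and is not of class `C ^ k` at `p_c` from the right, for all `k ≥ 7`.

Proof. Let `u_j = ∑_{i > j} c_i n_i`, `1 / p_j^± = m - u_j ∓ 1 / n_j`. The annealed function is at most `n_j ^ (-7)` at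
`p_j^-` and at least `n_j ^ (-2) / 2` at `p_j^+`, and `p_j^+ - p_j^- ≤ 2 / n_j`. By Markov's inequality and Borel-Cantelli
almost surely `g(T, p_j^-) ≤ 2 ^ j n_j ^ (-7)` for large `j`, hence `g(T, p_c + ε) = O(ε ^ k)` for all `k`. The probability
`x(a)` that `g(T, p) ≥ a` satisfies `x(p a) ≥ 1 - f(1 - x(a))` with the generating function `f`, and `x(g(p) / 2) ≥ g(p) / 2`.
So it grows until it is at least a constant `x_*` independent of `p`, for some `a ≥ c g(p) ^ 3`, and after `r` more steps it
is at least `1 - ρ ^ r`. Hence almost surely `g(T, p_j^+) ≥ c_T n_j ^ (-6)` for infinitely many `j`. The finite difference of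
order `k` of `g(T, ·)` at the points `p_j^+ - i (p_j^+ - p_j^-)` is then too large for a function of class `C ^ k`.
-/

set_option autoImplicit false

open MeasureTheory ProbabilityTheory Filter

namespace Pool.Agent.Results.MP_97806e_pr.QuenchedExpansionNotSmooth

open Pool.Agent.R953.Branch Pool.Agent.R953.GW

/-- The mean of the offspring distribution `μ`. -/
noncomputable def mean (μ : PMF ℕ) : ℝ := ∑' n, (μ n).toReal * n

/-- `f` has an order-`k` expansion at `a` from the right. -/
def HasExpansion (f : ℝ → ℝ) (a : ℝ) (k : ℕ) : Prop :=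
  ∃ c : ℕ → ℝ, (fun ε => f (a + ε) - ∑ j ∈ Finset.range (k + 1), c j * ε ^ j) =o[nhdsWithin 0 (Set.Ioi 0)]
    (fun ε => ε ^ k)

/-- `f` is of class `C ^ k` at `a` from the right. -/
def IsClass (f : ℝ → ℝ) (a : ℝ) (k : ℕ) : Prop :=
  ∃ δ > 0, ContDiffOn ℝ k f (Set.Ico a (a + δ))

/-- **Theorem.** There is an offspring distribution with mean `m ∈ (1, ∞)` such that for almost every Galton-Watson tree
`T` with this offspring distribution the quenched survival function `g(T, ·)` has an order-`k` expansion at `p_c = 1 / m`
from the right for every `k`, but is not of class `C ^ k` at `p_c` from the right for any `k ≥ 7`. -/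
theorem result : ∃ μ : PMF ℕ, Summable (fun n => (μ n).toReal * (n : ℝ)) ∧ 1 < mean μ ∧
    ∀ᵐ T ∂(gw μ), (∀ k : ℕ, HasExpansion (quenched T) (1 / mean μ) k) ∧
      ∀ k : ℕ, 7 ≤ k → ¬ IsClass (quenched T) (1 / mean μ) k := by
  have hm : mean ExpansionNotSmooth.mu = ExpansionNotSmooth.mm := ExpansionNotSmooth.mean_mu
  refine ⟨ExpansionNotSmooth.mu, ExpansionNotSmooth.summable_mean, ?_, ?_⟩
  · rw [hm]
    exact ExpansionNotSmooth.mm_gt
  · rw [hm]
    exact Pool.Agent.L5helper52.QU.main

end Pool.Agent.Results.MP_97806e_pr.QuenchedExpansionNotSmooth
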